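import Pool.Agent.Helper27.Mz2.Final2

set_option autoImplicit false

open Melzak
open scoped ENNReal

namespace Pool.Agent.Results.MP_90631d_gt.EdgeSurface

/-- The value of gamma(3; 1, 2), and no 3-polytope attains it. -/
theorem result :
    gamma 3 2 = ENNReal.ofReal ((16 * Real.pi / 3 + 2 * Real.sqrt 3) ^ (-(1 / 2) : ℝ)) ∧
    ∀ P : Set (E 3), IsPolytope P → zeta 2 P ^ (1 / (2 : ℝ)) < gamma 3 2 * zeta 1 P :=
  ⟨gamma_three_two, fun _ hP => not_attained hP⟩

end Pool.Agent.Results.MP_90631d_gt.EdgeSurface
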