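import Pool.Agent.SP4.Final3

set_option autoImplicit false

open Melzak
open scoped ENNReal

namespace Pool.Agent.Results.MP_90631d_gt.MelzakExtremal

/-- A 3-polytope is simple: every vertex (extreme point) lies in exactly 3 facets (2-faces). -/
def IsSimple (P : Set (E 3)) : Prop :=
  ∀ v ∈ P.extremePoints ℝ, {F : Set (E 3) | IsKFace 2 P F ∧ v ∈ F}.encard = 3

/-- The pair (d, s) = (3, 3): the supremum gamma 3 3 of zeta_3(K)^(1/3) / zeta_1(K) over the
three-dimensional compact convex sets K with finite zeta_1(K) is finite and is attained by a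
3-polytope; every 3-polytope attaining it is simple and has at most 576 facets. More generally
every 3-polytope at which zeta_3^(1/3) / zeta_1 is largest among the 3-polytopes with at most as
many facets is simple. -/
theorem result :
    gamma 3 3 ≠ ∞ ∧
    (∃ P : Set (E 3), IsPolytope P ∧ zeta 1 P ≠ 0 ∧ zeta 1 P ≠ ∞ ∧
      zeta 3 P ^ (1 / (3 : ℝ)) = gamma 3 3 * zeta 1 P) ∧
    (∀ P : Set (E 3), IsPolytope P → zeta 3 P ^ (1 / (3 : ℝ)) = gamma 3 3 * zeta 1 P →
      IsSimple P ∧ {F : Set (E 3) | IsKFace 2 P F}.encard ≤ 576) ∧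
    (∀ P : Set (E 3), IsPolytope P →
      (∀ P' : Set (E 3), IsPolytope P' →
        {F : Set (E 3) | IsKFace 2 P' F}.encard ≤ {F : Set (E 3) | IsKFace 2 P F}.encard →
        zeta 3 P' ^ (1 / (3 : ℝ)) * zeta 1 P ≤ zeta 3 P ^ (1 / (3 : ℝ)) * zeta 1 P') →
      IsSimple P) := by
  refine ⟨gamma_ne_top, ?_, fun P hP h => ⟨SP4.main_three P hP h, main_card hP h⟩,
    SP4.main_three_best⟩
  obtain ⟨P, hP, h⟩ := main
  exact ⟨P, hP, (zeta_one_ne hP).1, (zeta_one_ne hP).2, h⟩

end Pool.Agent.Results.MP_90631d_gt.MelzakExtremal
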