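import Pool.Agent.SP4.Extra

set_option autoImplicit false

open Melzak MeasureTheory
open scoped ENNReal

namespace Pool.Agent.Results.MP_90631d_gt.SimplePolytopes

/-- A 4-polytope is simple: every vertex (extreme point) lies in exactly 4 facets (3-faces). -/
def IsSimple (P : Set (E 4)) : Prop :=
  ∀ v ∈ P.extremePoints ℝ, {F : Set (E 4) | IsKFace 3 P F ∧ v ∈ F}.encard = 4

/-- The number of facets of P which contain e. -/
noncomputable def facetCount (P e : Set (E 4)) : ℕ :=
  {F : Set (E 4) | IsKFace 3 P F ∧ e ⊆ F}.ncard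

/-- The weighted edge length: the sum over the edges e of P of (k - 2) times the length of e, where
k is the number of facets containing e (k is at least 3, and k = 3 for all edges if P is simple). -/
noncomputable def weightedEdgeLength (P : Set (E 4)) : ℝ≥0∞ :=
  ∑' e : {e : Set (E 4) // IsKFace 1 P e},
    ((facetCount P (e : Set (E 4)) - 2 : ℕ) : ℝ≥0∞) * μHE[1] (e : Set (E 4))

/-- There is a constant Γ such that zeta_4(Q)^(1/4) <= Γ zeta_1(Q) for all simple 4-polytopes Q,
with equality for some simple 4-polytope P. For all 4-polytopes Q the inequality holds with the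
weighted edge length in place of zeta_1, and every Q with equality there is simple and has at most
512 facets. The weighted edge length is at least zeta_1, and it is zeta_1 for simple Q. -/
theorem result : ∃ Γ : ℝ≥0∞, Γ ≠ 0 ∧ Γ ≠ ∞ ∧
    (∀ Q : Set (E 4), IsPolytope Q → IsSimple Q → zeta 4 Q ^ (1 / (4 : ℝ)) ≤ Γ * zeta 1 Q) ∧
    (∃ P : Set (E 4), IsPolytope P ∧ IsSimple P ∧ zeta 4 P ^ (1 / (4 : ℝ)) = Γ * zeta 1 P) ∧
    (∀ Q : Set (E 4), IsPolytope Q → zeta 4 Q ^ (1 / (4 : ℝ)) ≤ Γ * weightedEdgeLength Q) ∧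
    (∀ Q : Set (E 4), IsPolytope Q → zeta 4 Q ^ (1 / (4 : ℝ)) = Γ * weightedEdgeLength Q →
      IsSimple Q ∧ {F : Set (E 4) | IsKFace 3 Q F}.encard ≤ 512) ∧
    (∀ Q : Set (E 4), IsPolytope Q → zeta 1 Q ≤ weightedEdgeLength Q) ∧
    (∀ Q : Set (E 4), IsPolytope Q → IsSimple Q → weightedEdgeLength Q = zeta 1 Q) := by
  obtain ⟨Γ, h0, ht, h1, h2, h3, h4⟩ := SP4.main_four
  refine ⟨Γ, h0, ht, fun Q hQ hs => ?_, h4, h1, h2, fun Q hQ => SP4.zeta_le_zetaW hQ, h3⟩
  have h5 := h1 Q hQ
  rw [h3 Q hQ hs] at h5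
  exact h5

end Pool.Agent.Results.MP_90631d_gt.SimplePolytopes
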